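import Pool.Agent.P.MP_d3a052_pr.Sphere

/-! Asymptotics of the higher moments of random solid angles. -/

open Filter Topology Pool.Agent.P.MP_d3a052_pr

namespace Pool.Agent.Results.MP_d3a052_pr.Moments

/-- For every fixed `k ≥ 2` there is `c > 0` with `m(d,k) ∼ c / (2^d d)` as `d → ∞`. -/
theorem result : ∀ k : ℕ, 2 ≤ k → ∃ c : ℝ, 0 < c ∧
    Tendsto (fun d : ℕ => moment d k / (c / (2 ^ d * d))) atTop (𝓝 1) := by
  intro k hk
  obtain ⟨c, hc, hT⟩ := moment_limit hk
  refine ⟨c, hc, ?_⟩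
  have h := hT.div_const c
  rw [div_self hc.ne'] at h
  refine h.congr fun d => ?_
  rw [div_div_eq_mul_div]
  ring

end Pool.Agent.Results.MP_d3a052_pr.Moments
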